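import Pool.Agent.H3.RB.Vin
import Pool.Agent.H70.AB.RangeD

/-!
# RB Main: blocks with equal prime sets are short

For every `ε > 0` there is `n₀` such that for all `n₂ ≥ n₀` and all `n₁, k₁, k₂` with `n₁ + k₁ ≤ n₂` and
`max k₁ k₂ ≥ exp ((log n₂)^(2/3+ε))` the products `(n₁+1)...(n₁+k₁)` and `(n₂+1)...(n₂+k₂)` have different prime sets.

`AB.length_le`: `k₁ ≤ C k₂ log (n₂ + k₂)`, so `k₂ ≥ exp ((log n₂)^(2/3+ε/2))`; `vin` and `AB.long_right`.
-/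

set_option autoImplicit false

open Finset

namespace Pool.Agent.H3.RB

open Pool.Agent.H70

private theorem prod_ne_zero' (n k : ℕ) : (∏ i ∈ Icc 1 k, (n + i)) ≠ 0 := by
  rw [Finset.prod_ne_zero_iff]
  intro i hi
  rw [mem_Icc] at hi
  omega

private theorem mem_pf {n k p : ℕ} (hp : p.Prime) :
    p ∈ (∏ i ∈ Icc 1 k, (n + i)).primeFactors ↔ ∃ x ∈ Icc (n + 1) (n + k), p ∣ x := by
  rw [Nat.mem_primeFactors]
  constructor
  · rintro ⟨_, h, _⟩
    obtain ⟨i, hi, hpi⟩ := (Prime.dvd_finsetProd_iff hp.prime _).1 h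
    rw [mem_Icc] at hi
    exact ⟨n + i, mem_Icc.2 ⟨by omega, by omega⟩, hpi⟩
  · rintro ⟨x, hx, hpx⟩
    rw [mem_Icc] at hx
    refine ⟨hp, ?_, prod_ne_zero' n k⟩
    have h2 : x = n + (x - n) := by omega
    have h3 : n + (x - n) ∣ ∏ i ∈ Icc 1 k, (n + i) := dvd_prod_of_mem (fun i => n + i) (by rw [mem_Icc]; omega)
    rw [← h2] at h3
    exact hpx.trans h3

/-- a block of positive length and start, or of length at least two, has a prime divisor -/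
private theorem exists_pf {n k : ℕ} (h : (0 < n ∧ 0 < k) ∨ 2 ≤ k) : ∃ p : ℕ, p.Prime ∧ ∃ x ∈ Icc (n + 1) (n + k), p ∣ x := by
  have hk : 1 ≤ k := by omega
  have h1 : n + k ≠ 1 := by omega
  obtain ⟨p, hp, hpd⟩ := Nat.exists_prime_and_dvd h1
  exact ⟨p, hp, n + k, mem_Icc.2 ⟨by omega, le_rfl⟩, hpd⟩

theorem main (ε : ℝ) (hε : 0 < ε) : ∃ n₀ : ℕ, ∀ n₁ k₁ n₂ k₂ : ℕ, n₀ ≤ n₂ → n₁ + k₁ ≤ n₂ →
    (Real.exp (Real.log n₂ ^ (2 / 3 + ε)) ≤ k₁ ∨ Real.exp (Real.log n₂ ^ (2 / 3 + ε)) ≤ k₂) →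
    (∏ i ∈ Icc 1 k₁, (n₁ + i)).primeFactors ≠ (∏ i ∈ Icc 1 k₂, (n₂ + i)).primeFactors := by
  obtain ⟨C, hC, hlen⟩ := AB.length_le
  obtain ⟨m₁, h₁⟩ := vin (ε / 2) (by positivity)
  obtain ⟨m₂, h₂⟩ := AB.long_right (1 / 10) (by norm_num)
  -- asymptotics
  have g1 : ∀ᶠ x : ℝ in Filter.atTop, 1 ≤ Real.log x := Real.tendsto_log_atTop.eventually_ge_atTop _
  have g2 : ∀ᶠ L : ℝ in Filter.atTop, L ^ (2 / 3 + ε / 2) + Real.log (2 * C * L) ≤ L ^ (2 / 3 + ε) := by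
    have e1 : ∀ᶠ L : ℝ in Filter.atTop, 2 ≤ L ^ (ε / 2) :=
      (tendsto_rpow_atTop (by positivity)).eventually_ge_atTop 2
    have e2 : ∀ᶠ L : ℝ in Filter.atTop, Real.log (2 * C * L) ≤ L ^ (2 / 3 + ε / 2) := by
      have e3 := (isLittleO_log_rpow_atTop (show (0 : ℝ) < 2 / 3 + ε / 2 by positivity)).bound
        (show (0 : ℝ) < 1 / 2 by norm_num)
      have e4 : ∀ᶠ L : ℝ in Filter.atTop, 2 * |Real.log (2 * C)| ≤ L ^ (2 / 3 + ε / 2) :=
        (tendsto_rpow_atTop (by positivity)).eventually_ge_atTop _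
      filter_upwards [e3, e4, Filter.eventually_ge_atTop 1] with L h3 h4 h5
      have hL0 : (0 : ℝ) < L := by linarith
      rw [Real.norm_of_nonneg (Real.log_nonneg h5), Real.norm_of_nonneg (Real.rpow_nonneg hL0.le _)] at h3
      rw [Real.log_mul (by positivity) hL0.ne']
      have := le_abs_self (Real.log (2 * C))
      linarith
    filter_upwards [e1, e2, Filter.eventually_ge_atTop 1] with L h1 h2 h3
    have hL0 : (0 : ℝ) < L := by linarith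
    have h4 : L ^ (2 / 3 + ε) = L ^ (2 / 3 + ε / 2) * L ^ (ε / 2) := by
      rw [← Real.rpow_add hL0]
      congr 1
      ring
    rw [h4]
    have h5 : 0 ≤ L ^ (2 / 3 + ε / 2) := Real.rpow_nonneg hL0.le _
    nlinarith
  obtain ⟨N₀, hN₀⟩ := Filter.eventually_atTop.1 (g1.and ((Real.tendsto_log_atTop.eventually g2).and
    (Filter.eventually_ge_atTop 2)))
  refine ⟨max (max m₁ m₂) ⌈N₀⌉₊, fun n₁ k₁ n₂ k₂ hn hle hmax heq => ?_⟩
  have hm1 : m₁ ≤ n₂ := (le_max_left _ _).trans ((le_max_left _ _).trans hn)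
  have hm2 : m₂ ≤ n₂ := (le_max_right _ _).trans ((le_max_left _ _).trans hn)
  have hnr : N₀ ≤ (n₂ : ℝ) := (Nat.le_ceil _).trans (by exact_mod_cast (le_max_right _ _).trans hn)
  obtain ⟨f1, f2, f3⟩ := hN₀ n₂ hnr
  set L : ℝ := Real.log n₂ with hL
  have hn2 : 2 ≤ n₂ := by exact_mod_cast f3
  have hn0 : (0 : ℝ) < n₂ := by linarith
  have hiff : ∀ p : ℕ, p.Prime → ((∃ x ∈ Icc (n₁ + 1) (n₁ + k₁), p ∣ x) ↔ ∃ y ∈ Icc (n₂ + 1) (n₂ + k₂), p ∣ y) := by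
    intro p hp
    rw [← mem_pf hp, ← mem_pf hp, heq]
  have hexp : (2 : ℝ) < Real.exp (L ^ (2 / 3 + ε)) := by
    have h1 : (1 : ℝ) ≤ L ^ (2 / 3 + ε) := Real.one_le_rpow f1 (by positivity)
    have h2 := Real.add_one_lt_exp (show L ^ (2 / 3 + ε) ≠ 0 by linarith)
    linarith
  -- both lengths are positive
  have hk₂ : 0 < k₂ := by
    by_contra h0
    have h0' : k₂ = 0 := by omega
    rcases hmax with h | h
    · have h3 : 2 ≤ k₁ := by
        have : (2 : ℝ) < k₁ := by linarith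
        have : 2 < k₁ := by exact_mod_cast this
        omega
      obtain ⟨p, hp, hx⟩ := exists_pf (n := n₁) (Or.inr h3)
      obtain ⟨y, hy, _⟩ := (hiff p hp).1 hx
      rw [mem_Icc] at hy
      omega
    · rw [h0'] at h
      push_cast at h
      linarith
  have hk₁ : 0 < k₁ := by
    by_contra h0
    have h0' : k₁ = 0 := by omega
    obtain ⟨p, hp, hx⟩ := exists_pf (n := n₂) (k := k₂) (Or.inl ⟨by omega, hk₂⟩)
    obtain ⟨y, hy, _⟩ := (hiff p hp).2 hx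
    rw [mem_Icc] at hy
    omega
  have hsol : AB.Sol n₂ k₂ n₁ k₁ := ⟨hk₁, hk₂, hle, hiff⟩
  rcases le_total ((n₂ : ℝ) ^ (3 / 5 : ℝ)) k₂ with h5 | h5
  · refine h₂ n₂ hm2 k₂ n₁ k₁ ?_ hsol
    rw [show (1 / 2 + 1 / 10 : ℝ) = 3 / 5 by norm_num]
    exact h5
  · refine h₁ n₂ k₂ n₁ k₁ hm1 ?_ h5 hsol
    have hLe : L ^ (2 / 3 + ε / 2) ≤ L ^ (2 / 3 + ε) := Real.rpow_le_rpow_of_exponent_le f1 (by linarith)
    rcases hmax with h | h
    · have hk2n : (k₂ : ℝ) ≤ n₂ := by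
        refine h5.trans ?_
        calc (n₂ : ℝ) ^ (3 / 5 : ℝ) ≤ (n₂ : ℝ) ^ (1 : ℝ) :=
              Real.rpow_le_rpow_of_exponent_le (by linarith) (by norm_num)
          _ = n₂ := Real.rpow_one _
      have hlog : Real.log ((n₂ : ℝ) + k₂) ≤ 2 * L := by
        have h6 : (n₂ : ℝ) + k₂ ≤ (n₂ : ℝ) ^ 2 := by nlinarith
        have h7 := Real.log_le_log (by positivity) h6
        rw [Real.log_pow] at h7
        push_cast at h7
        exact h7
      have h8 := hlen n₂ k₂ n₁ k₁ hsol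
      have hk₂R : (0 : ℝ) < k₂ := by exact_mod_cast hk₂
      have h9 : Real.exp (L ^ (2 / 3 + ε)) ≤ (2 * C * L) * k₂ := by
        calc Real.exp (L ^ (2 / 3 + ε)) ≤ k₁ := h
          _ ≤ C * k₂ * Real.log ((n₂ : ℝ) + k₂) := h8
          _ ≤ C * k₂ * (2 * L) := by gcongr
          _ = (2 * C * L) * k₂ := by ring
      have hCL : 0 < 2 * C * L := by positivity
      have h10 : Real.exp (L ^ (2 / 3 + ε / 2)) * (2 * C * L) ≤ Real.exp (L ^ (2 / 3 + ε)) := by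
        calc Real.exp (L ^ (2 / 3 + ε / 2)) * (2 * C * L) =
              Real.exp (L ^ (2 / 3 + ε / 2)) * Real.exp (Real.log (2 * C * L)) := by rw [Real.exp_log hCL]
          _ = Real.exp (L ^ (2 / 3 + ε / 2) + Real.log (2 * C * L)) := (Real.exp_add _ _).symm
          _ ≤ _ := Real.exp_le_exp.2 f2
      have h11 : Real.exp (L ^ (2 / 3 + ε / 2)) * (2 * C * L) ≤ k₂ * (2 * C * L) := by linarith
      exact le_of_mul_le_mul_right h11 hCL
    · exact (Real.exp_le_exp.2 hLe).trans h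

end Pool.Agent.H3.RB
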