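import Pool.Agent.H70.LC2.SC
import Pool.Agent.H70.LC2.UB
import Pool.Agent.H70.AB.Defs

/-!
# RB Vin: right blocks of length between `exp ((log m)^(2/3+ε))` and `m^(3/5)`

Right block `(m, m+l]`, left block `(n, n+k]`, `n + k ≤ m`, equal prime sets (`AB.Sol m l n k`), `L = log m`,
`k ≤ C l log (m+l)`, `K = max k l ≤ l L²`, `H = ⌈L⁴⌉`, `P = 6 K H ≤ l L⁷`, `P₁ = P ⌈L¹³⌉ ≤ l L²¹`, `Q = P L¹¹`.

* `n + k ≤ P₁`: a prime `p ∈ (P₁, 2P₁]` dividing an element of the right block (`lb_main`) exceeds the elements of the left block.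
* Otherwise `n ≥ Q`.  If `|a' n + b' m| ≥ Q` for all `(a', b') ≠ 0`, `|a'|, |b'| < H`: at most `16 (P/H² + P L^(-10))` integers of
  `(P, 2P]` divide elements of both blocks (`ker_up`, `he_main`), but there are `≥ l / (400 L)` such primes (`lb_main`).
* If `|b m - a n| < Q`, `1 ≤ b ≤ a < H` coprime: for a prime `p > P₁` and a `y = p (a q + 1)` in the right block (`lb_main`) there is `x` in
  the left block with `p ∣ x`, `b y = a x` (`prop_exact`), so `a ∣ p`, `a = b = 1`, `x = y`: contradiction.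
-/

set_option autoImplicit false

open Finset
open Pool.Agent.H91.PK (ee)

namespace Pool.Agent.H3.RB

open Pool.Agent.H70

open Classical in
/-- extraction of a prime from `lb_main` -/
private theorem vin_exists {P b : ℕ} {N K : ℝ} (hK : 0 < K) (hb : 1 ≤ b)
    (h : K / (400 * b) ≤ ∑ p ∈ (Ioc P (2 * P)).filter (fun p : ℕ => p.Prime ∧ ∃ q : ℕ, N < (p : ℝ) * (b * q + 1) ∧
      (p : ℝ) * (b * q + 1) ≤ N + K), Real.log p) :
    ∃ p q : ℕ, p.Prime ∧ P < p ∧ N < (p : ℝ) * (b * q + 1) ∧ (p : ℝ) * (b * q + 1) ≤ N + K := by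
  by_contra hcon
  push Not at hcon
  have h1 : (Ioc P (2 * P)).filter (fun p : ℕ => p.Prime ∧ ∃ q : ℕ, N < (p : ℝ) * (b * q + 1) ∧
      (p : ℝ) * (b * q + 1) ≤ N + K) = ∅ := by
    rw [filter_eq_empty_iff]
    rintro p hp ⟨hp1, q, hq1, hq2⟩
    rw [mem_Ioc] at hp
    exact absurd hq2 (not_le.2 (hcon p q hp1 hp.1 hq1))
  rw [h1, sum_empty] at h
  have hb' : (0 : ℝ) < b := by exact_mod_cast hb
  have : 0 < K / (400 * b) := by positivity
  linarith

/-- Case 1: the left block is below `P₁` -/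
private theorem vin_case1 {m l n k P₁ p q : ℕ} (h : AB.Sol m l n k) (hnk : n + k ≤ P₁) (hp : p.Prime) (hPp : P₁ < p)
    (h1 : m < p * (1 * q + 1)) (h2 : p * (1 * q + 1) ≤ m + l) : False := by
  obtain ⟨x, hx, hpx⟩ := (h.iff p hp).2 ⟨p * (1 * q + 1), mem_Icc.2 ⟨h1, h2⟩, Dvd.intro _ rfl⟩
  rw [mem_Icc] at hx
  have := Nat.le_of_dvd (by omega) hpx
  omega

/-- Case 2: a resonance -/
private theorem vin_case2 {m l n k K P₁ H a b p q : ℕ} {Q : ℝ} (h : AB.Sol m l n k) (hk : k ≤ K) (hl : l ≤ K)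
    (hb : 1 ≤ b) (hba : b ≤ a) (haH : a < H) (hcop : Nat.Coprime a b) (hQ : |(b : ℝ) * m - a * n| < Q)
    (hQP : Q + H * K ≤ P₁) (hHP : H ≤ P₁) (hp : p.Prime) (hPp : P₁ < p)
    (h1 : m < p * (a * q + 1)) (h2 : p * (a * q + 1) ≤ m + l) : False := by
  obtain ⟨x, hx, hpx⟩ := (h.iff p hp).2 ⟨p * (a * q + 1), mem_Icc.2 ⟨h1, h2⟩, Dvd.intro _ rfl⟩
  rw [mem_Icc] at hx
  have hle := h.le
  have hPR : (P₁ : ℝ) < p := by exact_mod_cast hPp
  have h3 : b * (p * (a * q + 1)) = a * x :=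
    LC2.prop_exact (n := n) (m := m) (k := K) (H := H) (Q := Q) (by omega) haH.le hQ (by linarith)
      (mem_Ioc.2 ⟨by omega, by omega⟩) (mem_Ioc.2 ⟨h1, by omega⟩) hpx (Dvd.intro _ rfl)
  have h4 : a ∣ b * (p * (a * q + 1)) := ⟨x, h3⟩
  have h5 : a ∣ p * (a * q + 1) := hcop.dvd_of_dvd_mul_left h4
  have h6 : Nat.Coprime a (a * q + 1) := by
    rw [Nat.coprime_mul_left_add_right]
    exact Nat.coprime_one_right a
  have h7 : a ∣ p := h6.dvd_of_dvd_mul_right h5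
  rcases (Nat.dvd_prime hp).1 h7 with h8 | h8
  · have h9 : b = 1 := by omega
    rw [h8, h9] at h3
    rw [h8] at h1
    omega
  · omega

/-- near integers -/
private theorem vin_near {a i p x K H P : ℕ} (hp : 0 < p) (hPp : P < p) (hP : P = 6 * K * H) (hH : 0 < H) (hi : i ≤ K)
    (hx1 : a < x) (hx2 : x ≤ a + i) (hpx : p ∣ x) : ∃ z : ℤ, |(a : ℝ) / p - z| ≤ 1 / (6 * H) := by
  obtain ⟨c, rfl⟩ := hpx
  refine ⟨(c : ℤ), ?_⟩
  have hp0 : (0 : ℝ) < p := by exact_mod_cast hp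
  have hH0 : (0 : ℝ) < H := by exact_mod_cast hH
  have h1 : (a : ℝ) < p * c := by exact_mod_cast hx1
  have h2 : (p : ℝ) * c ≤ a + i := by exact_mod_cast hx2
  have h3 : (i : ℝ) ≤ K := by exact_mod_cast hi
  have h4 : (6 : ℝ) * K * H < p := by
    have : 6 * K * H < p := by omega
    exact_mod_cast this
  have h5 : (a : ℝ) / p - ((c : ℤ) : ℝ) = (a - p * c) / p := by
    push_cast
    field_simp
  rw [h5, abs_div, abs_of_pos hp0, abs_of_neg (by linarith), div_le_div_iff₀ hp0 (by positivity)]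
  have h6 : -((a : ℝ) - p * c) ≤ K := by linarith
  nlinarith

open Classical in
/-- Case 3: no resonance -/
private theorem vin_case3 {m l n k K H P : ℕ} {L δ T X M₀ : ℝ} (h : AB.Sol m l n k) (hk : k ≤ K) (hl : l ≤ K) (hH : 0 < H)
    (hP : P = 6 * K * H) (hL : 0 < L) (hlog : Real.log ((2 * P : ℕ) : ℝ) ≤ L) (hδ : 0 ≤ δ) (hHE : LC2.HE X δ T M₀) (hM : M₀ ≤ P)
    (hX : 2 * H * m ≤ X)
    (hno : ∀ a b : ℤ, |a| < H → |b| < H → (a ≠ 0 ∨ b ≠ 0) → (P : ℝ) * T ≤ |(a : ℝ) * n + b * m|)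
    (hlb : (l : ℝ) / (400 * (1 : ℕ)) ≤ ∑ p ∈ (Ioc P (2 * P)).filter (fun p : ℕ => p.Prime ∧ ∃ q : ℕ, (m : ℝ) < (p : ℝ) * ((1 : ℕ) * q + 1) ∧
      (p : ℝ) * ((1 : ℕ) * q + 1) ≤ m + l), Real.log p) :
    (l : ℝ) / 400 ≤ L * (16 * (P / (H : ℝ) ^ 2 + δ * P)) := by
  set D := Ioc P (2 * P) with hD
  have hle : (n : ℝ) + k ≤ m := by exact_mod_cast h.le
  have hup := LC2.ker_up D (fun d => (n : ℝ) / d) (fun d => (m : ℝ) / d) (H := H) hH (E := δ * P)
    (by positivity) (fun a b ha hb hab => by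
      have h1 := hno a b ha hb hab
      have ha' : |(a : ℝ)| ≤ H := by
        have : ((|a| : ℤ) : ℝ) ≤ ((H : ℤ) : ℝ) := by exact_mod_cast ha.le
        push_cast at this
        exact this
      have hb' : |(b : ℝ)| ≤ H := by
        have : ((|b| : ℤ) : ℝ) ≤ ((H : ℤ) : ℝ) := by exact_mod_cast hb.le
        push_cast at this
        exact this
      have hn0 : (0 : ℝ) ≤ n := Nat.cast_nonneg n
      have hm0 : (0 : ℝ) ≤ m := Nat.cast_nonneg m
      have hk0 : (0 : ℝ) ≤ k := Nat.cast_nonneg k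
      have h2 : |(a : ℝ) * n + b * m| ≤ X := by
        calc |(a : ℝ) * n + b * m| ≤ |(a : ℝ) * n| + |(b : ℝ) * m| := abs_add_le _ _
          _ = |(a : ℝ)| * n + |(b : ℝ)| * m := by rw [abs_mul, abs_mul, abs_of_nonneg hn0, abs_of_nonneg hm0]
          _ ≤ H * m + H * m := by
              refine add_le_add ?_ ?_
              · exact mul_le_mul ha' (by linarith) hn0 (Nat.cast_nonneg _)
              · exact mul_le_mul_of_nonneg_right hb' hm0
          _ = 2 * H * m := by ring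
          _ ≤ X := hX
      have h3 := hHE P _ hM h1 h2 P ((2 * P : ℕ) : ℝ) le_rfl (by
        have : P ≤ 2 * P := by omega
        exact_mod_cast this) (by push_cast; exact le_rfl)
      rw [Nat.floor_natCast, Nat.floor_natCast] at h3
      refine le_trans (le_of_eq ?_) h3
      congr 1
      refine sum_congr rfl fun d hd => ?_
      congr 1
      ring)
  have hcardD : (D.card : ℝ) = P := by
    rw [hD, Nat.card_Ioc]
    congr 1
    omega
  rw [hcardD] at hup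
  set S := D.filter (fun p : ℕ => p.Prime ∧ ∃ q : ℕ, (m : ℝ) < (p : ℝ) * ((1 : ℕ) * q + 1) ∧
      (p : ℝ) * ((1 : ℕ) * q + 1) ≤ m + l) with hS
  have hsub : S ⊆ D.filter (fun d : ℕ => (∃ z : ℤ, |(n : ℝ) / d - z| ≤ 1 / (6 * H)) ∧ ∃ z : ℤ, |(m : ℝ) / d - z| ≤ 1 / (6 * H)) := by
    intro p hp
    rw [hS, mem_filter] at hp
    obtain ⟨hpD, hpp, q, hq1, hq2⟩ := hp
    have hpD' := hpD
    rw [hD, mem_Ioc] at hpD'
    have hq1' : m < p * (q + 1) := by
      have : (m : ℝ) < ((p * (q + 1) : ℕ) : ℝ) := by push_cast at hq1 ⊢; linarith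
      exact_mod_cast this
    have hq2' : p * (q + 1) ≤ m + l := by
      have : ((p * (q + 1) : ℕ) : ℝ) ≤ ((m + l : ℕ) : ℝ) := by push_cast at hq2 ⊢; linarith
      exact_mod_cast this
    obtain ⟨x, hx, hpx⟩ := (h.iff p hpp).2 ⟨p * (q + 1), mem_Icc.2 ⟨hq1', hq2'⟩, Dvd.intro _ rfl⟩
    rw [mem_Icc] at hx
    rw [mem_filter]
    exact ⟨hpD, vin_near hpp.pos hpD'.1 hP hH hk (by omega) hx.2 hpx,
      vin_near hpp.pos hpD'.1 hP hH hl hq1' hq2' (Dvd.intro _ rfl)⟩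
  have hcard : (S.card : ℝ) ≤ 16 * (P / (H : ℝ) ^ 2 + δ * P) :=
    (Nat.cast_le.2 (card_le_card hsub)).trans hup
  have hsum : ∑ p ∈ S, Real.log p ≤ S.card * L := by
    rw [← nsmul_eq_mul]
    refine sum_le_card_nsmul _ _ _ fun p hp => ?_
    rw [hS, mem_filter, hD, mem_Ioc] at hp
    refine le_trans (Real.log_le_log (by exact_mod_cast hp.2.1.pos) ?_) hlog
    exact_mod_cast hp.1.2
  have h4 : (l : ℝ) / (400 * (1 : ℕ)) = l / 400 := by push_cast; ring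
  rw [h4] at hlb
  calc (l : ℝ) / 400 ≤ S.card * L := hlb.trans hsum
    _ = L * S.card := by ring
    _ ≤ _ := by gcongr

open Classical in
private theorem vin_core {C0 L u E0 : ℝ} {m l n k : ℕ} (h : AB.Sol m l n k) (hLm : L = Real.log m)
    (hC : (k : ℝ) ≤ C0 * l * Real.log (m + l)) (hC0 : 0 < C0) (hL : 200000 ≤ L) (hCL : 2 * C0 ≤ L) (hu : (m : ℝ) = u ^ 20)
    (hu2 : L ^ 22 ≤ u) (hl : (l : ℝ) ≤ u ^ 12) (hE : E0 ≤ l)
    (hHE : LC2.HE ((m : ℝ) ^ 3) ((L ^ 10)⁻¹) (L ^ 11) E0)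
    (hLB : ∀ (P b : ℕ) (N K : ℝ), E0 ≤ P → (P : ℝ) ≤ u ^ 13 → 1 ≤ b → (b : ℝ) ≤ L ^ 22 → (m : ℝ) ≤ N → N ≤ 2 * m →
      (P : ℝ) ≤ K * L ^ 22 → K ≤ P → K / (400 * b) ≤ ∑ p ∈ (Ioc P (2 * P)).filter (fun p : ℕ => p.Prime ∧
        ∃ q : ℕ, N < (p : ℝ) * (b * q + 1) ∧ (p : ℝ) * (b * q + 1) ≤ N + K), Real.log p) : False := by
  have hL0 : 0 < L := by linarith
  have hL1 : 1 ≤ L := by linarith
  have hl1 : (1 : ℝ) ≤ l := by exact_mod_cast h.hl
  have hl0 : (0 : ℝ) < l := by linarith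
  have hpow : ∀ a b : ℕ, a ≤ b → L ^ a ≤ L ^ b := fun a b hab => pow_le_pow_right₀ hL1 hab
  have hLL : L ≤ u := by
    have h1 := hpow 1 22 (by norm_num)
    rw [pow_one] at h1
    linarith
  have hu1 : 1 ≤ u := by linarith
  have hu0 : 0 < u := by linarith
  have hupow : ∀ a b : ℕ, a ≤ b → u ^ a ≤ u ^ b := fun a b hab => pow_le_pow_right₀ hu1 hab
  have hm0 : (0 : ℝ) < m := by rw [hu]; positivity
  have hm2 : (2 : ℝ) ≤ m := by
    rw [hu]
    have := hupow 1 20 (by norm_num)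
    rw [pow_one] at this
    linarith
  have hlm : (l : ℝ) ≤ m := by
    rw [hu]
    exact hl.trans (hupow 12 20 (by norm_num))
  have hlog2 : Real.log ((m : ℝ) + l) ≤ 2 * L := by
    have h1 : (m : ℝ) + l ≤ (m : ℝ) ^ 2 := by nlinarith
    have h2 := Real.log_le_log (by linarith) h1
    rw [Real.log_pow] at h2
    push_cast at h2
    rw [hLm]
    exact h2
  set K : ℕ := max k l with hKd
  set H : ℕ := ⌈L ^ 4⌉₊ with hHd
  set P : ℕ := 6 * K * H with hPd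
  set W : ℕ := ⌈L ^ 13⌉₊ with hWd
  set P₁ : ℕ := P * W with hP₁d
  have hkK : k ≤ K := le_max_left _ _
  have hlK : l ≤ K := le_max_right _ _
  have hKl : (K : ℝ) ≤ l * L ^ 2 := by
    have h1 : (k : ℝ) ≤ l * L ^ 2 := by
      calc (k : ℝ) ≤ C0 * l * Real.log (m + l) := hC
        _ ≤ C0 * l * (2 * L) := by gcongr
        _ = (2 * C0) * (l * L) := by ring
        _ ≤ L * (l * L) := by gcongr
        _ = l * L ^ 2 := by ring
    have h2 : (l : ℝ) ≤ l * L ^ 2 := by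
      have := hpow 0 2 (by norm_num)
      rw [pow_zero] at this
      nlinarith
    rw [hKd]
    push_cast
    exact max_le h1 h2
  have hH1 : L ^ 4 ≤ H := Nat.le_ceil _
  have hL4 : (1 : ℝ) ≤ L ^ 4 := one_le_pow₀ hL1
  have hH2 : (H : ℝ) ≤ 2 * L ^ 4 := by
    have : (H : ℝ) < L ^ 4 + 1 := Nat.ceil_lt_add_one (by positivity)
    linarith
  have hHR : (1 : ℝ) ≤ H := hL4.trans hH1
  have hHpos : 0 < H := by exact_mod_cast (by linarith : (0 : ℝ) < H)
  have hW1 : L ^ 13 ≤ W := Nat.le_ceil _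
  have hL13 : (1 : ℝ) ≤ L ^ 13 := one_le_pow₀ hL1
  have hW2 : (W : ℝ) ≤ 2 * L ^ 13 := by
    have : (W : ℝ) < L ^ 13 + 1 := Nat.ceil_lt_add_one (by positivity)
    linarith
  have hWR : (1 : ℝ) ≤ W := hL13.trans hW1
  have hWpos : 0 < W := by exact_mod_cast (by linarith : (0 : ℝ) < W)
  have hPR : (P : ℝ) = 6 * K * H := by rw [hPd]; push_cast; ring
  have hK1 : (1 : ℝ) ≤ K := hl1.trans (by exact_mod_cast hlK)
  have hP1 : (P : ℝ) ≤ l * L ^ 7 := by
    calc (P : ℝ) = 6 * K * H := hPR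
      _ ≤ 6 * (l * L ^ 2) * (2 * L ^ 4) := by gcongr
      _ = 12 * (l * L ^ 6) := by ring
      _ ≤ L * (l * L ^ 6) := by gcongr; linarith
      _ = l * L ^ 7 := by ring
  have hP0 : (1 : ℝ) ≤ P := by rw [hPR]; nlinarith
  have hPpos : (0 : ℝ) < P := by linarith
  have hlP : (l : ℝ) ≤ P := by
    rw [hPR]
    have : (l : ℝ) ≤ K := by exact_mod_cast hlK
    nlinarith
  have hHKP : (H : ℝ) * K ≤ P := by rw [hPR]; nlinarith
  have hP₁R : (P₁ : ℝ) = P * W := by rw [hP₁d]; push_cast; ring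
  have hPP₁ : (P : ℝ) ≤ P₁ := by rw [hP₁R]; nlinarith
  have hP₁1 : (P₁ : ℝ) ≤ l * L ^ 21 := by
    calc (P₁ : ℝ) = P * W := hP₁R
      _ ≤ (l * L ^ 7) * (2 * L ^ 13) := by gcongr
      _ = 2 * (l * L ^ 20) := by ring
      _ ≤ L * (l * L ^ 20) := by gcongr; linarith
      _ = l * L ^ 21 := by ring
  have h2122 := hpow 21 22 (by norm_num)
  have hP₁u : (P₁ : ℝ) ≤ u ^ 13 := by
    calc (P₁ : ℝ) ≤ l * L ^ 21 := hP₁1
      _ ≤ u ^ 12 * u := by gcongr; linarith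
      _ = u ^ 13 := by ring
  have hP₁L : (P₁ : ℝ) ≤ l * L ^ 22 := hP₁1.trans (mul_le_mul_of_nonneg_left h2122 hl0.le)
  have hQP : (P : ℝ) * L ^ 11 + H * K ≤ P₁ := by
    have e1 : (P : ℝ) * (L ^ 11 + 1) ≤ P * L ^ 13 := by
      refine mul_le_mul_of_nonneg_left ?_ hPpos.le
      have e2 : L ^ 12 = L * L ^ 11 := by ring
      have e3 : (1 : ℝ) ≤ L ^ 11 := one_le_pow₀ hL1
      have e4 : 2 * L ^ 11 ≤ L * L ^ 11 := mul_le_mul_of_nonneg_right (by linarith) (by linarith)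
      have e5 := hpow 12 13 (by norm_num)
      linarith
    have e5 : (P : ℝ) * L ^ 13 ≤ P₁ := by rw [hP₁R]; gcongr
    linarith
  have hHP₁ : H ≤ P₁ := by
    have : (H : ℝ) ≤ P₁ := by
      have : (H : ℝ) ≤ H * K := by nlinarith
      linarith
    exact_mod_cast this
  have hEP : E0 ≤ P := hE.trans hlP
  have hle := h.le
  have hnat : ∀ p b q : ℕ, (m : ℝ) < (p : ℝ) * ((b : ℝ) * q + 1) → (p : ℝ) * ((b : ℝ) * q + 1) ≤ m + l →
      m < p * (b * q + 1) ∧ p * (b * q + 1) ≤ m + l := by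
    intro p b q h1 h2
    constructor
    · have : (m : ℝ) < ((p * (b * q + 1) : ℕ) : ℝ) := by push_cast; exact h1
      exact_mod_cast this
    · have : ((p * (b * q + 1) : ℕ) : ℝ) ≤ ((m + l : ℕ) : ℝ) := by push_cast; exact h2
      exact_mod_cast this
  rcases le_or_gt (n + k) P₁ with hcase | hcase
  · obtain ⟨p, q, hp, hPp, h1, h2⟩ := vin_exists hl0 le_rfl (hLB P₁ 1 m l (hEP.trans hPP₁) hP₁u le_rfl
      (by push_cast; exact one_le_pow₀ hL1) le_rfl (by linarith) hP₁L (hlP.trans hPP₁))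
    obtain ⟨h3, h4⟩ := hnat p 1 q h1 h2
    exact vin_case1 h hcase hp hPp h3 h4
  · have hQn : (P : ℝ) * L ^ 11 ≤ n := by
      have e1 : (P₁ : ℝ) < n + k := by exact_mod_cast hcase
      have e2 : (k : ℝ) ≤ K := by exact_mod_cast hkK
      have e3 : (K : ℝ) ≤ H * K := by nlinarith
      linarith
    by_cases hres : ∃ a b : ℤ, |a| < H ∧ |b| < H ∧ (a ≠ 0 ∨ b ≠ 0) ∧ |(a : ℝ) * n + b * m| < P * L ^ 11
    · obtain ⟨a', b', ha', hb', hab', hlt⟩ := hres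
      obtain ⟨a, b, hb, hba, haH, hcop, hQ⟩ := LC2.exists_pair hQn (by omega : n ≤ m) hab' ha' hb' hlt
      have haL : (a : ℝ) ≤ L ^ 22 := by
        have e1 : (a : ℝ) ≤ H := by exact_mod_cast haH.le
        calc (a : ℝ) ≤ H := e1
          _ ≤ 2 * L ^ 4 := hH2
          _ ≤ L * L ^ 4 := by gcongr; linarith
          _ = L ^ 5 := by ring
          _ ≤ L ^ 22 := hpow 5 22 (by norm_num)
      obtain ⟨p, q, hp, hPp, h1, h2⟩ := vin_exists hl0 (by omega : 1 ≤ a) (hLB P₁ a m l (hEP.trans hPP₁) hP₁u (by omega)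
        haL le_rfl (by linarith) hP₁L (hlP.trans hPP₁))
      obtain ⟨h3, h4⟩ := hnat p a q h1 h2
      exact vin_case2 h hkK hlK hb hba haH hcop hQ hQP hHP₁ hp hPp h3 h4
    · push Not at hres
      have hPu : (P : ℝ) ≤ u ^ 13 := hPP₁.trans hP₁u
      have hlogP : Real.log ((2 * P : ℕ) : ℝ) ≤ L := by
        rw [hLm]
        refine Real.log_le_log (by push_cast; linarith) ?_
        push_cast
        rw [hu]
        calc 2 * (P : ℝ) ≤ u * u ^ 13 := by gcongr; linarith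
          _ = u ^ 14 := by ring
          _ ≤ u ^ 20 := hupow 14 20 (by norm_num)
      have hX : 2 * (H : ℝ) * m ≤ (m : ℝ) ^ 3 := by
        have e1 : 2 * (H : ℝ) ≤ (m : ℝ) ^ 2 := by
          calc 2 * (H : ℝ) ≤ 2 * (2 * L ^ 4) := by linarith
            _ = 4 * L ^ 4 := by ring
            _ ≤ L * L ^ 4 := by gcongr; linarith
            _ = L ^ 5 := by ring
            _ ≤ L ^ 22 := hpow 5 22 (by norm_num)
            _ ≤ u := hu2
            _ ≤ u ^ 20 := by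
              have := hupow 1 20 (by norm_num)
              rwa [pow_one] at this
            _ = m := hu.symm
            _ ≤ (m : ℝ) ^ 2 := by nlinarith
        calc 2 * (H : ℝ) * m ≤ (m : ℝ) ^ 2 * m := by gcongr
          _ = (m : ℝ) ^ 3 := by ring
      have hPL : (P : ℝ) ≤ l * L ^ 22 := hPP₁.trans hP₁L
      have hfin := vin_case3 h hkK hlK hHpos hPd hL0 hlogP (by positivity : (0 : ℝ) ≤ (L ^ 10)⁻¹) hHE hEP hX
        (fun a b ha hb hab => hres a b ha hb hab)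
        (hLB P 1 m l hEP hPu le_rfl (by push_cast; exact one_le_pow₀ hL1) le_rfl (by linarith) hPL hlP)
      have e1 : (P : ℝ) / (H : ℝ) ^ 2 ≤ 6 * (l / L ^ 2) := by
        have e2 : (P : ℝ) / (H : ℝ) ^ 2 = 6 * (K / H) := by
          rw [hPR]
          field_simp
        rw [e2]
        have e3 : (K : ℝ) / H ≤ (l * L ^ 2) / L ^ 4 := div_le_div₀ (by positivity) hKl (by positivity) hH1
        have e4 : (l * L ^ 2) / L ^ 4 = l / L ^ 2 := by field_simp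
        linarith
      have e5 : (L ^ 10)⁻¹ * (P : ℝ) ≤ l / L ^ 2 := by
        calc (L ^ 10)⁻¹ * (P : ℝ) ≤ (L ^ 10)⁻¹ * (l * L ^ 7) := by gcongr
          _ = l / L ^ 3 := by field_simp
          _ ≤ l / L ^ 2 := div_le_div_of_nonneg_left hl0.le (by positivity) (hpow 2 3 (by norm_num))
      have e6 : (l : ℝ) / 400 ≤ 112 * (l / L) := by
        calc (l : ℝ) / 400 ≤ L * (16 * (P / (H : ℝ) ^ 2 + (L ^ 10)⁻¹ * P)) := hfin
          _ ≤ L * (16 * (6 * (l / L ^ 2) + l / L ^ 2)) := by gcongr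
          _ = 112 * (l / L) := by field_simp; norm_num
      have e7 : (l : ℝ) / L ≤ l / 200000 := by gcongr
      linarith

/-- right blocks of length `≥ exp ((log m)^(2/3+ε))`, `≤ m^(3/5)` -/
theorem vin (ε : ℝ) (hε : 0 < ε) : ∃ m₀ : ℕ, ∀ m l n k : ℕ, m₀ ≤ m → Real.exp (Real.log m ^ (2 / 3 + ε)) ≤ l →
    (l : ℝ) ≤ (m : ℝ) ^ (3 / 5 : ℝ) → ¬ AB.Sol m l n k := by
  obtain ⟨C0, hC0, hlen⟩ := AB.length_le
  obtain ⟨n₁, h₁⟩ := LC2.he_main ε 10 3 hε (by norm_num)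
  obtain ⟨n₂, h₂⟩ := LC2.lb_main ε 22 hε (by norm_num)
  have g1 : ∀ᶠ x : ℝ in Filter.atTop, n₁ ≤ x := Filter.eventually_ge_atTop n₁
  have g2 : ∀ᶠ x : ℝ in Filter.atTop, n₂ ≤ x := Filter.eventually_ge_atTop n₂
  have g3 : ∀ᶠ x : ℝ in Filter.atTop, max 200000 (2 * C0) ≤ Real.log x := Real.tendsto_log_atTop.eventually_ge_atTop _
  have g4 : ∀ᶠ x : ℝ in Filter.atTop, Real.log x ^ 22 ≤ x ^ (1 / 20 : ℝ) := by
    have h5 := (isLittleO_log_rpow_rpow_atTop (22 : ℝ) (by norm_num : (0 : ℝ) < 1 / 20)).bound (one_pos)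
    filter_upwards [h5, g3, Filter.eventually_ge_atTop 1] with x hx hx1 hx2
    have h6 : Real.log x ^ (22 : ℝ) = Real.log x ^ 22 := by
      rw [show (22 : ℝ) = ((22 : ℕ) : ℝ) by norm_num, Real.rpow_natCast]
    have h7 : 0 ≤ Real.log x := by
      have := (le_max_left (200000 : ℝ) (2 * C0)).trans hx1
      linarith
    rw [h6, Real.norm_of_nonneg (by positivity), Real.norm_of_nonneg (by positivity)] at hx
    linarith
  obtain ⟨N₀, hN₀⟩ := Filter.eventually_atTop.1 (g1.and (g2.and (g3.and (g4.and (Filter.eventually_ge_atTop 1)))))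
  refine ⟨⌈N₀⌉₊, fun m l n k hm hl1 hl2 hsol => ?_⟩
  have hmr : N₀ ≤ (m : ℝ) := (Nat.le_ceil _).trans (by exact_mod_cast hm)
  obtain ⟨f1, f2, f3, f4, f5⟩ := hN₀ m hmr
  have hm0 : (0 : ℝ) < m := by linarith
  have e1 : ∀ a : ℕ, ((m : ℝ) ^ (1 / 20 : ℝ)) ^ a = (m : ℝ) ^ ((a : ℝ) / 20) := by
    intro a
    rw [← Real.rpow_natCast, ← Real.rpow_mul hm0.le]
    congr 1
    ring
  have hHE := h₁ m f1
  have e2 : (m : ℝ) ^ (3 : ℝ) = (m : ℝ) ^ 3 := by
    rw [show (3 : ℝ) = ((3 : ℕ) : ℝ) by norm_num, Real.rpow_natCast]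
  have hL0 : 0 < Real.log m := by
    have := (le_max_left (200000 : ℝ) (2 * C0)).trans f3
    linarith
  have e3 : Real.log m ^ (-(10 : ℝ)) = (Real.log m ^ 10)⁻¹ := by
    rw [Real.rpow_neg hL0.le, show (10 : ℝ) = ((10 : ℕ) : ℝ) by norm_num, Real.rpow_natCast]
  have e4 : Real.log m ^ ((10 : ℝ) + 1) = Real.log m ^ 11 := by
    rw [show (10 : ℝ) + 1 = ((11 : ℕ) : ℝ) by norm_num, Real.rpow_natCast]
  rw [e2, e3, e4] at hHE
  have e5 : Real.log m ^ (22 : ℝ) = Real.log m ^ 22 := by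
    rw [show (22 : ℝ) = ((22 : ℕ) : ℝ) by norm_num, Real.rpow_natCast]
  refine vin_core (C0 := C0) (L := Real.log m) (u := (m : ℝ) ^ (1 / 20 : ℝ)) hsol rfl (hlen m l n k hsol) hC0
    ((le_max_left _ _).trans f3) ((le_max_right _ _).trans f3) ?_ f4 ?_ hl1 hHE ?_
  · rw [e1 20]
    norm_num
  · rw [e1 12]
    refine hl2.trans (le_of_eq ?_)
    norm_num
  · intro P b N K hP hP' hb hb' hN hN' hPK hKP
    refine h₂ m f2 P b N K hP ?_ hb ?_ hN hN' ?_ hKP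
    · rw [e1 13] at hP'
      refine hP'.trans (le_of_eq ?_)
      norm_num
    · rw [e5]; exact hb'
    · rw [e5]; exact hPK

end Pool.Agent.H3.RB
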